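import Mathlib
import Pool.Agent.P8H87.LP.Cls
import Pool.Agent.P8H87.LP.Grp
import Pool.Agent.P8H87.LP.Lists

/-!
# Continuity at one of the threshold of the basic linear program

The left limit at one of the threshold function is at least the threshold of arc consistency, with
an explicit rate of convergence; continuity at one follows for all families whose basic linear
program has the value one on all arc consistent instances, for all families with a robust rounding
to exact solutions, and for all families with a map which preserves exact tuples and has a strict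
Lyapunov function. Among the consequences are all families of cosets over a finite group, all
families closed under the dual discriminator, all Boolean families in the six classes of Schaefer,
all Boolean families of binary predicates and many families for which satisfiability is hard (for
example clauses, and colourings with lists).
-/

set_option autoImplicit false

namespace Pool.Agent.Results.MP_8ad0a3_lc.ArcConsistency

open Filter Topology Pool.Agent.P8H87.LP

theorem result :
    (∀ (S : Type) [Fintype S] [Nonempty S] (k : ℕ),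
      (∃ C : ℝ, 0 < C ∧ ∀ (F : Set ((Fin k → S) → Bool)) (c : ℝ), 0 ≤ c → c < 1 →
        thetaArc F - C / (1 + Real.log (1 / (1 - c))) ≤ thetaStar F c) ∧
      (∀ F : Set ((Fin k → S) → Bool), thetaArc F ≤ thetaStar F 1) ∧
      (∀ F : Set ((Fin k → S) → Bool), thetaStar F 1 = thetaArc F →
        Tendsto (theta F) (𝓝[<] 1) (𝓝 (theta F 1))) ∧
      (∀ F : Set ((Fin k → S) → Bool), (∀ I : Inst S k F, I.Arc → I.valLP = 1) →
        thetaStar F 1 = thetaArc F ∧ Tendsto (theta F) (𝓝[<] 1) (𝓝 (theta F 1))) ∧
      (∀ F : Set ((Fin k → S) → Bool), Rounds F →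
        Tendsto (theta F) (𝓝[<] 1) (𝓝 (theta F 1))) ∧
      (∀ F : Set ((Fin k → S) → Bool), Flow F →
        Rounds F ∧ Tendsto (theta F) (𝓝[<] 1) (𝓝 (theta F 1))) ∧
      (∀ F : Set ((Fin k → S) → Bool), (∀ f ∈ F, Closed3 dualDisc f) →
        Tendsto (theta F) (𝓝[<] 1) (𝓝 (theta F 1)))) ∧
    (∀ (S : Type) [Fintype S] [Group S] (k : ℕ) (F : Set ((Fin k → S) → Bool)),
      (∀ f ∈ F, Closed3 (fun a b c : S => a * b⁻¹ * c) f) →
        Tendsto (theta F) (𝓝[<] 1) (𝓝 (theta F 1))) ∧
    (∀ (S : Type) [Fintype S] [Nonempty S] [LinearOrder S] (k : ℕ), 1 ≤ k →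
      ∀ F : Set ((Fin k → S) → Bool),
        (∀ f ∈ F, WithLists (fun g => Lattice g ∨ Clause g ∨ Diseq g) f) →
        Tendsto (theta F) (𝓝[<] 1) (𝓝 (theta F 1))) ∧
    (∀ k : ℕ, 1 ≤ k → ∀ F : Set ((Fin k → Bool) → Bool),
      (∀ f ∈ F, WithLists (fun g => Affine g ∨ TwoVar g ∨ Clause g ∨ Lattice g) f) →
        Tendsto (theta F) (𝓝[<] 1) (𝓝 (theta F 1))) ∧
    (∀ k : ℕ, 1 ≤ k → ∀ F : Set ((Fin k → Bool) → Bool),
      (∀ f ∈ F, f (fun _ => false) = true) ∨ (∀ f ∈ F, f (fun _ => true) = true) ∨
      (∀ f ∈ F, MinClosed f) ∨ (∀ f ∈ F, MaxClosed f) ∨ (∀ f ∈ F, Affine f) ∨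
      (∀ f ∈ F, Bijunctive f) →
        Tendsto (theta F) (𝓝[<] 1) (𝓝 (theta F 1))) ∧
    (∀ F : Set ((Fin 2 → Bool) → Bool), Tendsto (theta F) (𝓝[<] 1) (𝓝 (theta F 1))) := by
  refine ⟨fun S _ _ k => ⟨rate k, fun F => arc_le_star, fun F h => cont h.le, fun F h => ?_,
    fun F h => cont_of_rounds h, fun F h => ⟨rounds_of_flow h, cont_of_rounds (rounds_of_flow h)⟩,
    fun F h => cont_of_rounds (rounds_of_flow (flow_dd h))⟩,
    fun S _ _ k F h => ?_,
    fun S _ _ _ k hk F h => cont (star_le_arc fun I hI => arc_order_lists hk h I hI),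
    fun k hk F h => cont (star_le_arc fun I hI => arc_bool_lists hk h I hI),
    fun k hk F h => ?_,
    fun F => cont (star_le_arc fun I hI => arc_bool (by norm_num)
      (fun f _ => Or.inr (Or.inl (twoVar_two f))) I hI)⟩
  · exact ⟨le_antisymm (star_le_arc h) arc_le_star, cont (star_le_arc h)⟩
  · have : Nonempty S := ⟨1⟩
    exact cont_of_rounds (rounds_of_flow (flow_group h))
  · rcases h with h | h | h | h | h | h
    · exact cont (star_le_arc fun I hI => arc_valid false h I hI)
    · exact cont (star_le_arc fun I hI => arc_valid true h I hI)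
    · exact cont (star_le_arc fun I hI => arc_min hk h I hI)
    · exact cont (star_le_arc fun I hI => arc_max hk h I hI)
    · exact cont (star_le_arc fun I hI => arc_bool hk (fun f hf' => Or.inl (h f hf')) I hI)
    · exact cont_of_rounds (rounds_bij h)

end Pool.Agent.Results.MP_8ad0a3_lc.ArcConsistency
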